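import Mathlib

/-!
# Sets closed under divisors: correlation inequalities (FKG on the lattice of divisors)
-/

set_option autoImplicit false

namespace Pool.Agent.helper5.WI

open Finset

/-- The divisors of `Q`, ordered by divisibility. -/
def DivT (Q : ℕ) : Type := {d : ℕ // d ∈ Q.divisors}

theorem DivT.pos {Q : ℕ} (d : DivT Q) : 0 < d.1 := Nat.pos_of_mem_divisors d.2

theorem DivT.dvd {Q : ℕ} (d : DivT Q) : d.1 ∣ Q := (Nat.mem_divisors.1 d.2).1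

theorem DivT.ne {Q : ℕ} (d : DivT Q) : Q ≠ 0 := (Nat.mem_divisors.1 d.2).2

theorem gcd_lcm_le {x y z : ℕ} (hx : 0 < x) (hy : 0 < y) (hz : 0 < z) :
    Nat.gcd (Nat.lcm x y) (Nat.lcm x z) ∣ Nat.lcm x (Nat.gcd y z) := by
  have h1 : Nat.lcm x y ≠ 0 := Nat.lcm_ne_zero hx.ne' hy.ne'
  have h2 : Nat.lcm x z ≠ 0 := Nat.lcm_ne_zero hx.ne' hz.ne'
  have h3 : Nat.gcd y z ≠ 0 := (Nat.gcd_pos_of_pos_left z hy).ne'
  have h4 : Nat.gcd (Nat.lcm x y) (Nat.lcm x z) ≠ 0 :=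
    (Nat.gcd_pos_of_pos_left _ (Nat.pos_of_ne_zero h1)).ne'
  have h5 : Nat.lcm x (Nat.gcd y z) ≠ 0 := Nat.lcm_ne_zero hx.ne' h3
  rw [← Nat.factorization_le_iff_dvd h4 h5, Nat.factorization_gcd h1 h2,
    Nat.factorization_lcm hx.ne' hy.ne', Nat.factorization_lcm hx.ne' hz.ne',
    Nat.factorization_lcm hx.ne' h3, Nat.factorization_gcd hy.ne' hz.ne']
  intro p
  simp only [Finsupp.inf_apply, Finsupp.sup_apply]
  exact le_sup_inf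

instance instDivT (Q : ℕ) : DistribLattice (DivT Q) where
  le a b := a.1 ∣ b.1
  le_refl a := dvd_refl _
  le_trans a b c h1 h2 := dvd_trans h1 h2
  le_antisymm a b h1 h2 := Subtype.ext (Nat.dvd_antisymm h1 h2)
  sup a b := ⟨Nat.lcm a.1 b.1, Nat.mem_divisors.2 ⟨Nat.lcm_dvd a.dvd b.dvd, a.ne⟩⟩
  inf a b := ⟨Nat.gcd a.1 b.1, Nat.mem_divisors.2 ⟨(Nat.gcd_dvd_left _ _).trans a.dvd, a.ne⟩⟩
  le_sup_left a b := Nat.dvd_lcm_left _ _
  le_sup_right a b := Nat.dvd_lcm_right _ _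
  sup_le a b c h1 h2 := Nat.lcm_dvd h1 h2
  inf_le_left a b := Nat.gcd_dvd_left _ _
  inf_le_right a b := Nat.gcd_dvd_right _ _
  le_inf a b c h1 h2 := Nat.dvd_gcd h1 h2
  le_sup_inf a b c := gcd_lcm_le a.pos b.pos c.pos

instance (Q : ℕ) : Fintype (DivT Q) := inferInstanceAs (Fintype {d : ℕ // d ∈ Q.divisors})

theorem sum_divT (Q : ℕ) (f : ℕ → ℝ) : ∑ a : DivT Q, f a.1 = ∑ d ∈ Q.divisors, f d :=
  Finset.sum_coe_sort Q.divisors f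

/-- FKG on the lattice of divisors of `Q`, weights `1 / d`. -/
theorem fkg_div (Q : ℕ) (f g : ℕ → ℝ) (hf₀ : ∀ d, 0 ≤ f d) (hg₀ : ∀ d, 0 ≤ g d)
    (hf : ∀ a b, a ∣ b → b ∣ Q → f a ≤ f b) (hg : ∀ a b, a ∣ b → b ∣ Q → g a ≤ g b) :
    (∑ d ∈ Q.divisors, (d : ℝ)⁻¹ * f d) * (∑ d ∈ Q.divisors, (d : ℝ)⁻¹ * g d) ≤
      (∑ d ∈ Q.divisors, (d : ℝ)⁻¹) * ∑ d ∈ Q.divisors, (d : ℝ)⁻¹ * (f d * g d) := by
  rw [← sum_divT Q (fun d => (d : ℝ)⁻¹ * f d), ← sum_divT Q (fun d => (d : ℝ)⁻¹ * g d),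
    ← sum_divT Q (fun d => (d : ℝ)⁻¹), ← sum_divT Q (fun d => (d : ℝ)⁻¹ * (f d * g d))]
  refine fkg (f := fun a : DivT Q => f a.1) (g := fun a : DivT Q => g a.1)
    (μ := fun a : DivT Q => (a.1 : ℝ)⁻¹) ?_ ?_ ?_ ?_ ?_ ?_
  · intro a; simp only [Pi.zero_apply]; positivity
  · intro a; exact hf₀ _
  · intro a; exact hg₀ _
  · intro a b hab; exact hf _ _ hab b.dvd
  · intro a b hab; exact hg _ _ hab b.dvd
  · intro a b
    show (a.1 : ℝ)⁻¹ * (b.1 : ℝ)⁻¹ ≤ ((Nat.gcd a.1 b.1 : ℕ) : ℝ)⁻¹ * ((Nat.lcm a.1 b.1 : ℕ) : ℝ)⁻¹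
    rw [← mul_inv, ← mul_inv]
    have := Nat.gcd_mul_lcm a.1 b.1
    have h2 : ((Nat.gcd a.1 b.1 : ℕ) : ℝ) * ((Nat.lcm a.1 b.1 : ℕ) : ℝ) = (a.1 : ℝ) * (b.1 : ℝ) := by
      exact_mod_cast this
    rw [h2]

/-- Two decreasing events are positively correlated. -/
theorem fkg_anti (Q : ℕ) (B C : Set ℕ) [DecidablePred (· ∈ B)] [DecidablePred (· ∈ C)]
    (hB : ∀ n ∈ B, ∀ d, d ∣ n → d ∈ B) (hC : ∀ n ∈ C, ∀ d, d ∣ n → d ∈ C) :
    (∑ d ∈ Q.divisors.filter (· ∈ B), (d : ℝ)⁻¹) * (∑ d ∈ Q.divisors.filter (· ∈ C), (d : ℝ)⁻¹) ≤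
      (∑ d ∈ Q.divisors, (d : ℝ)⁻¹) *
        ∑ d ∈ Q.divisors.filter (fun d => d ∈ B ∧ d ∈ C), (d : ℝ)⁻¹ := by
  have key := fkg_div Q (fun d => if d ∈ B then 0 else 1) (fun d => if d ∈ C then 0 else 1)
    (fun d => by positivity) (fun d => by positivity)
    (fun a b hab _ => by
      by_cases hb : b ∈ B
      · simp [hb, hB b hb a hab]
      · simp only [hb, if_false]; split_ifs <;> norm_num)
    (fun a b hab _ => by
      by_cases hb : b ∈ C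
      · simp [hb, hC b hb a hab]
      · simp only [hb, if_false]; split_ifs <;> norm_num)
  set s := ∑ d ∈ Q.divisors, (d : ℝ)⁻¹ with hs
  set sB := ∑ d ∈ Q.divisors.filter (· ∈ B), (d : ℝ)⁻¹ with hsB
  set sC := ∑ d ∈ Q.divisors.filter (· ∈ C), (d : ℝ)⁻¹ with hsC
  set sBC := ∑ d ∈ Q.divisors.filter (fun d => d ∈ B ∧ d ∈ C), (d : ℝ)⁻¹ with hsBC
  have e1 : ∑ d ∈ Q.divisors, (d : ℝ)⁻¹ * (if d ∈ B then 0 else 1) = s - sB := by
    rw [hs, hsB, Finset.sum_filter, ← Finset.sum_sub_distrib]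
    refine Finset.sum_congr rfl fun d _ => ?_
    split_ifs <;> simp
  have e2 : ∑ d ∈ Q.divisors, (d : ℝ)⁻¹ * (if d ∈ C then 0 else 1) = s - sC := by
    rw [hs, hsC, Finset.sum_filter, ← Finset.sum_sub_distrib]
    refine Finset.sum_congr rfl fun d _ => ?_
    split_ifs <;> simp
  have e3 : ∑ d ∈ Q.divisors, (d : ℝ)⁻¹ * ((if d ∈ B then (0 : ℝ) else 1) *
      (if d ∈ C then 0 else 1)) = s - sB - sC + sBC := by
    rw [hs, hsB, hsC, hsBC, Finset.sum_filter, Finset.sum_filter, Finset.sum_filter,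
      ← Finset.sum_sub_distrib, ← Finset.sum_sub_distrib, ← Finset.sum_add_distrib]
    refine Finset.sum_congr rfl fun d _ => ?_
    by_cases h1 : d ∈ B <;> by_cases h2 : d ∈ C <;> simp [h1, h2]
  rw [e1, e2, e3] at key
  nlinarith [key]

/-- A decreasing event and an increasing function are negatively correlated. -/
theorem fkg_mixed (Q : ℕ) (B : Set ℕ) [DecidablePred (· ∈ B)] (g : ℕ → ℝ)
    (hB : ∀ n ∈ B, ∀ d, d ∣ n → d ∈ B) (hg₀ : ∀ d, 0 ≤ g d)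
    (hg : ∀ a b, a ∣ b → b ∣ Q → g a ≤ g b) :
    (∑ d ∈ Q.divisors, (d : ℝ)⁻¹) * (∑ d ∈ Q.divisors.filter (· ∈ B), (d : ℝ)⁻¹ * g d) ≤
      (∑ d ∈ Q.divisors.filter (· ∈ B), (d : ℝ)⁻¹) * ∑ d ∈ Q.divisors, (d : ℝ)⁻¹ * g d := by
  have key := fkg_div Q (fun d => if d ∈ B then 0 else 1) g
    (fun d => by positivity) hg₀
    (fun a b hab _ => by
      by_cases hb : b ∈ B
      · simp [hb, hB b hb a hab]
      · simp only [hb, if_false]; split_ifs <;> norm_num) hg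
  set s := ∑ d ∈ Q.divisors, (d : ℝ)⁻¹ with hs
  set sB := ∑ d ∈ Q.divisors.filter (· ∈ B), (d : ℝ)⁻¹ with hsB
  set sg := ∑ d ∈ Q.divisors, (d : ℝ)⁻¹ * g d with hsg
  set sBg := ∑ d ∈ Q.divisors.filter (· ∈ B), (d : ℝ)⁻¹ * g d with hsBg
  have e1 : ∑ d ∈ Q.divisors, (d : ℝ)⁻¹ * (if d ∈ B then 0 else 1) = s - sB := by
    rw [hs, hsB, Finset.sum_filter, ← Finset.sum_sub_distrib]
    refine Finset.sum_congr rfl fun d _ => ?_
    split_ifs <;> simp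
  have e3 : ∑ d ∈ Q.divisors, (d : ℝ)⁻¹ * ((if d ∈ B then (0 : ℝ) else 1) * g d) = sg - sBg := by
    rw [hsg, hsBg, Finset.sum_filter, ← Finset.sum_sub_distrib]
    refine Finset.sum_congr rfl fun d _ => ?_
    by_cases h1 : d ∈ B <;> simp [h1]
  rw [e1, e3] at key
  nlinarith [key]

end Pool.Agent.helper5.WI
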