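import Mathlib
import Pool.Agent.helper5.WI.Div

/-!
# Sets closed under divisors: densities
-/

set_option autoImplicit false

namespace Pool.Agent.helper5.WI

open Finset
open scoped Classical

/-- The proportion of residues `n` modulo `Q` with `gcd (Q, n) ∈ B`. -/
noncomputable def mQ (B : Set ℕ) (Q : ℕ) : ℝ :=
  (((range Q).filter (fun n => Q.gcd n ∈ B)).card : ℝ) / Q

/-- `φ (Q / d) / (Q / d)` -/
noncomputable def gQ (Q d : ℕ) : ℝ := (Nat.totient (Q / d) : ℝ) / ((Q / d : ℕ) : ℝ)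

/-- harmonic sum -/
noncomputable def Hs (x : ℕ) : ℝ := ∑ n ∈ Icc 1 x, (n : ℝ)⁻¹

/-- harmonic sum over a set -/
noncomputable def Ls (B : Set ℕ) (x : ℕ) : ℝ := ∑ n ∈ (Icc 1 x).filter (· ∈ B), (n : ℝ)⁻¹

theorem phi_ratio {n : ℕ} (hn : n ≠ 0) :
    (Nat.totient n : ℝ) / (n : ℝ) = ∏ p ∈ n.primeFactors, (1 - (p : ℝ)⁻¹) := by
  have h := Nat.totient_eq_mul_prod_factors n
  have h2 : ((Nat.totient n : ℚ) : ℝ) = ((n * ∏ p ∈ n.primeFactors, (1 - (p : ℚ)⁻¹) : ℚ) : ℝ) := by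
    rw [h]
  push_cast at h2
  have hn' : (n : ℝ) ≠ 0 := by exact_mod_cast hn
  rw [h2, mul_div_cancel_left₀ _ hn']

theorem fac_nonneg {p : ℕ} (hp : p.Prime) : 0 ≤ 1 - (p : ℝ)⁻¹ := by
  have : (1 : ℝ) ≤ p := by exact_mod_cast hp.one_lt.le
  have := inv_le_one_of_one_le₀ this
  linarith

theorem fac_le_one {p : ℕ} : 1 - (p : ℝ)⁻¹ ≤ 1 := by
  have : (0 : ℝ) ≤ (p : ℝ)⁻¹ := by positivity
  linarith

theorem phi_ratio_mono {n m : ℕ} (hm : m ≠ 0) (h : n ∣ m) :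
    (Nat.totient m : ℝ) / (m : ℝ) ≤ (Nat.totient n : ℝ) / (n : ℝ) := by
  have hn : n ≠ 0 := fun h0 => hm (by rw [h0] at h; exact Nat.eq_zero_of_zero_dvd h)
  rw [phi_ratio hm, phi_ratio hn, ← Finset.prod_sdiff (Nat.primeFactors_mono h hm)]
  have h1 : ∏ p ∈ m.primeFactors \ n.primeFactors, (1 - (p : ℝ)⁻¹) ≤ 1 :=
    Finset.prod_le_one (fun p hp => fac_nonneg (Nat.prime_of_mem_primeFactors (mem_sdiff.1 hp).1))
      (fun p _ => fac_le_one)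
  have h2 : 0 ≤ ∏ p ∈ n.primeFactors, (1 - (p : ℝ)⁻¹) :=
    Finset.prod_nonneg (fun p hp => fac_nonneg (Nat.prime_of_mem_primeFactors hp))
  calc _ ≤ 1 * ∏ p ∈ n.primeFactors, (1 - (p : ℝ)⁻¹) := mul_le_mul_of_nonneg_right h1 h2
    _ = _ := one_mul _

theorem gQ_nonneg (Q d : ℕ) : 0 ≤ gQ Q d := by unfold gQ; positivity

theorem gQ_mono {Q : ℕ} (hQ : Q ≠ 0) (a b : ℕ) (hab : a ∣ b) (hb : b ∣ Q) : gQ Q a ≤ gQ Q b := by
  have hb0 : b ≠ 0 := fun h0 => hQ (by rw [h0] at hb; exact Nat.eq_zero_of_zero_dvd hb)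
  have ha : a ∣ Q := hab.trans hb
  have hqa : Q / a ≠ 0 := (Nat.div_pos (Nat.le_of_dvd (Nat.pos_of_ne_zero hQ) ha)
    (Nat.pos_of_dvd_of_pos ha (Nat.pos_of_ne_zero hQ))).ne'
  refine phi_ratio_mono hqa ?_
  exact Nat.div_dvd_div_left hb hab

theorem card_gcd_eq {Q : ℕ} (hQ : Q ≠ 0) (B : Set ℕ) :
    (((range Q).filter (fun n => Q.gcd n ∈ B)).card) =
      ∑ d ∈ Q.divisors.filter (· ∈ B), Nat.totient (Q / d) := by
  rw [Finset.card_eq_sum_card_fiberwise (f := fun n => Q.gcd n) (t := Q.divisors.filter (· ∈ B))]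
  · refine Finset.sum_congr rfl fun d hd => ?_
    have hd' := (Nat.mem_divisors.1 (mem_filter.1 hd).1).1
    rw [Nat.totient_div_of_dvd hd']
    congr 1
    ext n
    simp only [mem_filter, mem_range]
    constructor
    · rintro ⟨⟨h1, _⟩, h3⟩; exact ⟨h1, h3⟩
    · rintro ⟨h1, h3⟩; exact ⟨⟨h1, by rw [h3]; exact (mem_filter.1 hd).2⟩, h3⟩
  · intro n hn
    have hn' := mem_filter.1 (Finset.mem_coe.1 hn)
    exact Finset.mem_coe.2 (mem_filter.2 ⟨Nat.mem_divisors.2 ⟨Nat.gcd_dvd_left _ _, hQ⟩, hn'.2⟩)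

theorem mQ_eq {Q : ℕ} (hQ : Q ≠ 0) (B : Set ℕ) :
    mQ B Q = ∑ d ∈ Q.divisors.filter (· ∈ B), (d : ℝ)⁻¹ * gQ Q d := by
  unfold mQ
  rw [card_gcd_eq hQ, Nat.cast_sum, Finset.sum_div]
  refine Finset.sum_congr rfl fun d hd => ?_
  have hd' := (Nat.mem_divisors.1 (mem_filter.1 hd).1).1
  obtain ⟨k, hk⟩ := hd'
  have hd0 : 0 < d := Nat.pos_of_ne_zero (fun h => hQ (by rw [hk, h, zero_mul]))
  unfold gQ
  have hq : Q / d = k := by rw [hk]; exact Nat.mul_div_cancel_left k hd0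
  rw [hq]
  have hk0 : (k : ℝ) ≠ 0 := by
    intro h
    have : k = 0 := by exact_mod_cast h
    exact hQ (by rw [hk, this, mul_zero])
  have hd0' : (d : ℝ) ≠ 0 := by exact_mod_cast hd0.ne'
  rw [hk]; push_cast
  field_simp

theorem mQ_univ {Q : ℕ} (hQ : Q ≠ 0) : ∑ d ∈ Q.divisors, (d : ℝ)⁻¹ * gQ Q d = 1 := by
  have h := mQ_eq hQ Set.univ
  have h2 : mQ Set.univ Q = 1 := by
    unfold mQ
    have : (Q : ℝ) ≠ 0 := by exact_mod_cast hQ
    simp [this]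
  rw [h2] at h
  rw [h]
  simp

theorem mQ_nonneg (B : Set ℕ) (Q : ℕ) : 0 ≤ mQ B Q := by unfold mQ; positivity

/-- `mQ` is at most the harmonic proportion. -/
theorem mQ_le_harm {Q : ℕ} (hQ : Q ≠ 0) (B : Set ℕ) (hB : ∀ n ∈ B, ∀ d, d ∣ n → d ∈ B) :
    (∑ d ∈ Q.divisors, (d : ℝ)⁻¹) * mQ B Q ≤ ∑ d ∈ Q.divisors.filter (· ∈ B), (d : ℝ)⁻¹ := by
  have h := fkg_mixed Q B (gQ Q) hB (gQ_nonneg Q) (gQ_mono hQ)
  rw [mQ_univ hQ, mul_one, ← mQ_eq hQ] at h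
  exact h

/-- Harmonic sums over sets closed under divisors. -/
theorem Ls_ge {Q x : ℕ} (hQ : Q ≠ 0) (B : Set ℕ) (hB : ∀ n ∈ B, ∀ d, d ∣ n → d ∈ B)
    (hx : ∀ n, 1 ≤ n → n ≤ x → n ∣ Q) : mQ B Q * Hs x ≤ Ls B x := by
  have h1 := mQ_le_harm hQ B hB
  have h2 := fkg_anti Q B (Set.Icc 1 x) hB (by
    intro n hn d hd
    have hn' := Set.mem_Icc.1 hn
    have hn0 : 0 < n := hn'.1
    exact Set.mem_Icc.2 ⟨Nat.pos_of_dvd_of_pos hd hn0, (Nat.le_of_dvd hn0 hd).trans hn'.2⟩)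
  have e1 : Q.divisors.filter (· ∈ Set.Icc 1 x) = Icc 1 x := by
    ext n
    simp only [mem_filter, Nat.mem_divisors, Set.mem_Icc, mem_Icc]
    constructor
    · rintro ⟨_, h⟩; exact h
    · intro h; exact ⟨⟨hx n h.1 h.2, hQ⟩, h⟩
  have e2 : Q.divisors.filter (fun d => d ∈ B ∧ d ∈ Set.Icc 1 x) = (Icc 1 x).filter (· ∈ B) := by
    ext n
    simp only [mem_filter, Nat.mem_divisors, Set.mem_Icc, mem_Icc]
    constructor
    · rintro ⟨_, h, h'⟩; exact ⟨h', h⟩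
    · rintro ⟨h, h'⟩; exact ⟨⟨hx n h.1 h.2, hQ⟩, h', h⟩
  have h3 : (∑ d ∈ Q.divisors.filter (· ∈ B), (d : ℝ)⁻¹) * Hs x ≤
      (∑ d ∈ Q.divisors, (d : ℝ)⁻¹) * Ls B x := by
    unfold Hs Ls
    rw [← e2, ← e1]
    convert h2 using 2
  have hH : 0 ≤ Hs x := by unfold Hs; positivity
  have hs : 0 < ∑ d ∈ Q.divisors, (d : ℝ)⁻¹ := by
    refine Finset.sum_pos (fun d hd => ?_) ⟨1, Nat.mem_divisors.2 ⟨one_dvd _, hQ⟩⟩
    have := Nat.pos_of_mem_divisors hd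
    positivity
  have h4 : (∑ d ∈ Q.divisors, (d : ℝ)⁻¹) * (mQ B Q * Hs x) ≤
      (∑ d ∈ Q.divisors, (d : ℝ)⁻¹) * Ls B x := by
    calc _ = ((∑ d ∈ Q.divisors, (d : ℝ)⁻¹) * mQ B Q) * Hs x := by ring
      _ ≤ (∑ d ∈ Q.divisors.filter (· ∈ B), (d : ℝ)⁻¹) * Hs x := mul_le_mul_of_nonneg_right h1 hH
      _ ≤ _ := h3
  exact le_of_mul_le_mul_left h4 hs

theorem card_period (Q k : ℕ) (p : ℕ → Prop) [DecidablePred p] (hp : Function.Periodic p Q) :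
    ((range (Q * k)).filter p).card = k * ((range Q).filter p).card := by
  induction k with
  | zero => simp
  | succ k ih =>
    have h1 : range (Q * (k + 1)) = range (Q * k) ∪ Ico (Q * k) (Q * k + Q) := by
      ext n; simp only [mem_range, mem_union, mem_Ico, mul_add, mul_one]; omega
    have h2 : Disjoint ((range (Q * k)).filter p) ((Ico (Q * k) (Q * k + Q)).filter p) := by
      rw [Finset.disjoint_left]
      intro n hn hn'
      have := mem_range.1 (mem_filter.1 hn).1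
      have := (mem_Ico.1 (mem_filter.1 hn').1).1
      omega
    rw [h1, Finset.filter_union, Finset.card_union_of_disjoint h2, ih,
      Nat.filter_Ico_card_eq_of_periodic _ _ _ hp]
    have h3 := Nat.filter_Ico_card_eq_of_periodic 0 Q p hp
    rw [zero_add] at h3
    rw [← h3, ← Finset.range_eq_Ico]
    ring

theorem periodic_gcd (B : Set ℕ) (Q : ℕ) : Function.Periodic (fun n => Q.gcd n ∈ B) Q := by
  intro n
  simp

/-- Antitone in `Q` for divisibility. -/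
theorem mQ_anti {B : Set ℕ} (hB : ∀ n ∈ B, ∀ d, d ∣ n → d ∈ B) {Q Q' : ℕ} (hQ' : Q' ≠ 0)
    (h : Q ∣ Q') : mQ B Q' ≤ mQ B Q := by
  obtain ⟨k, rfl⟩ := h
  have hQ : Q ≠ 0 := fun h0 => hQ' (by rw [h0, zero_mul])
  have hk : k ≠ 0 := fun h0 => hQ' (by rw [h0, mul_zero])
  have h1 : ((range (Q * k)).filter (fun n => (Q * k).gcd n ∈ B)).card ≤
      ((range (Q * k)).filter (fun n => Q.gcd n ∈ B)).card := by
    refine Finset.card_le_card ?_
    intro n hn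
    have hn' := mem_filter.1 hn
    exact mem_filter.2 ⟨hn'.1, hB _ hn'.2 _ (Nat.gcd_dvd_gcd_of_dvd_left _ (dvd_mul_right _ _))⟩
  rw [card_period Q k _ (periodic_gcd B Q)] at h1
  unfold mQ
  have hQr : (0 : ℝ) < Q := by exact_mod_cast Nat.pos_of_ne_zero hQ
  have hkr : (0 : ℝ) < k := by exact_mod_cast Nat.pos_of_ne_zero hk
  rw [div_le_div_iff₀ (by push_cast; positivity) hQr]
  have h2 : (((range (Q * k)).filter (fun n => (Q * k).gcd n ∈ B)).card : ℝ) ≤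
      (k : ℝ) * (((range Q).filter (fun n => Q.gcd n ∈ B)).card : ℝ) := by exact_mod_cast h1
  calc _ ≤ ((k : ℝ) * (((range Q).filter (fun n => Q.gcd n ∈ B)).card : ℝ)) * (Q : ℝ) :=
        mul_le_mul_of_nonneg_right h2 hQr.le
    _ = _ := by push_cast; ring

/-- counting function -/
noncomputable def cN (B : Set ℕ) (N : ℕ) : ℝ := (((Icc 1 N).filter (· ∈ B)).card : ℝ)

theorem cN_le_mQ {B : Set ℕ} (hB : ∀ n ∈ B, ∀ d, d ∣ n → d ∈ B) {Q : ℕ} (hQ : Q ≠ 0) (N : ℕ) :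
    cN B N ≤ mQ B Q * N + Q := by
  have hQ0 := Nat.pos_of_ne_zero hQ
  have h1 : ((Icc 1 N).filter (· ∈ B)).card ≤
      ((range (Q * (N / Q + 1))).filter (fun n => Q.gcd n ∈ B)).card := by
    refine Finset.card_le_card ?_
    intro n hn
    have hn' := mem_filter.1 hn
    have hn2 := mem_Icc.1 hn'.1
    refine mem_filter.2 ⟨mem_range.2 (lt_of_le_of_lt hn2.2 ?_), hB _ hn'.2 _ (Nat.gcd_dvd_right _ _)⟩
    exact Nat.lt_mul_div_succ N hQ0
  rw [card_period Q _ _ (periodic_gcd B Q)] at h1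
  have h2 : cN B N ≤ ((N / Q : ℕ) + 1 : ℝ) *
      (((range Q).filter (fun n => Q.gcd n ∈ B)).card : ℝ) := by
    unfold cN; exact_mod_cast h1
  have h3 : (((range Q).filter (fun n => Q.gcd n ∈ B)).card : ℝ) = mQ B Q * Q := by
    unfold mQ
    have : (Q : ℝ) ≠ 0 := by exact_mod_cast hQ
    field_simp
  have h4 : ((N / Q : ℕ) : ℝ) * Q ≤ N := by exact_mod_cast Nat.div_mul_le_self N Q
  have h5 : (((range Q).filter (fun n => Q.gcd n ∈ B)).card : ℝ) ≤ Q := by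
    have := Finset.card_filter_le (range Q) (fun n => Q.gcd n ∈ B)
    rw [card_range] at this
    exact_mod_cast this
  have h6 := mQ_nonneg B Q
  calc cN B N ≤ ((N / Q : ℕ) + 1 : ℝ) * (((range Q).filter (fun n => Q.gcd n ∈ B)).card : ℝ) := h2
    _ = mQ B Q * (((N / Q : ℕ) : ℝ) * Q) +
        (((range Q).filter (fun n => Q.gcd n ∈ B)).card : ℝ) := by rw [h3]; ring
    _ ≤ mQ B Q * N + Q := by gcongr

/-- Partial summation. -/
theorem Ls_eq (B : Set ℕ) (x : ℕ) :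
    Ls B x = cN B x * ((x : ℝ) + 1)⁻¹ +
      ∑ n ∈ Icc 1 x, cN B n * ((n : ℝ)⁻¹ - ((n : ℝ) + 1)⁻¹) := by
  induction x with
  | zero => simp [Ls, cN]
  | succ x ih =>
    have hI : Icc 1 (x + 1) = insert (x + 1) (Icc 1 x) := by
      ext n; simp only [mem_Icc, mem_insert]; omega
    have hnm : x + 1 ∉ Icc 1 x := by simp
    have hx : ((x : ℝ) + 1) ≠ 0 := by positivity
    by_cases hm : (x + 1) ∈ B
    · have e1 : Ls B (x + 1) = ((x : ℝ) + 1)⁻¹ + Ls B x := by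
        unfold Ls
        rw [hI, Finset.filter_insert, if_pos hm, Finset.sum_insert (by simp)]
        push_cast; rfl
      have e2 : cN B (x + 1) = 1 + cN B x := by
        unfold cN
        rw [hI, Finset.filter_insert, if_pos hm, Finset.card_insert_of_notMem (by simp)]
        push_cast; ring
      rw [e1, ih, hI, Finset.sum_insert hnm, e2]
      push_cast
      ring
    · have e1 : Ls B (x + 1) = Ls B x := by
        unfold Ls
        rw [hI, Finset.filter_insert, if_neg hm]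
      have e2 : cN B (x + 1) = cN B x := by
        unfold cN
        rw [hI, Finset.filter_insert, if_neg hm]
      rw [e1, ih, hI, Finset.sum_insert hnm, e2]
      push_cast
      ring

theorem Hs_eq (x : ℕ) : Hs x = (x : ℝ) * ((x : ℝ) + 1)⁻¹ +
      ∑ n ∈ Icc 1 x, (n : ℝ) * ((n : ℝ)⁻¹ - ((n : ℝ) + 1)⁻¹) := by
  have h := Ls_eq Set.univ x
  have e : ∀ N : ℕ, cN Set.univ N = N := by intro N; unfold cN; simp
  simp only [e] at h
  rw [← h]; unfold Hs Ls; simp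

theorem one_eq (x : ℕ) : (1 : ℝ) = ((x : ℝ) + 1)⁻¹ +
      ∑ n ∈ Icc 1 x, ((n : ℝ)⁻¹ - ((n : ℝ) + 1)⁻¹) := by
  induction x with
  | zero => simp
  | succ x ih =>
    have hI : Icc 1 (x + 1) = insert (x + 1) (Icc 1 x) := by
      ext n; simp only [mem_Icc, mem_insert]; omega
    rw [hI, Finset.sum_insert (by simp)]
    push_cast
    linarith [ih]

theorem Ls_le {B : Set ℕ} {a C : ℝ} (h : ∀ n, cN B n ≤ a * n + C) (x : ℕ) :
    Ls B x ≤ a * Hs x + C := by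
  have hpos : ∀ n : ℕ, 1 ≤ n → 0 ≤ (n : ℝ)⁻¹ - ((n : ℝ) + 1)⁻¹ := by
    intro n hn
    have h1 : (0 : ℝ) < n := by exact_mod_cast hn
    have := inv_anti₀ h1 (by linarith : (n : ℝ) ≤ (n : ℝ) + 1)
    linarith
  calc Ls B x = cN B x * ((x : ℝ) + 1)⁻¹ +
      ∑ n ∈ Icc 1 x, cN B n * ((n : ℝ)⁻¹ - ((n : ℝ) + 1)⁻¹) := Ls_eq B x
    _ ≤ (a * x + C) * ((x : ℝ) + 1)⁻¹ +
      ∑ n ∈ Icc 1 x, (a * n + C) * ((n : ℝ)⁻¹ - ((n : ℝ) + 1)⁻¹) := by
        refine add_le_add (mul_le_mul_of_nonneg_right (h x) (by positivity)) ?_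
        refine Finset.sum_le_sum fun n hn => ?_
        exact mul_le_mul_of_nonneg_right (h n) (hpos n (mem_Icc.1 hn).1)
    _ = a * ((x : ℝ) * ((x : ℝ) + 1)⁻¹ +
          ∑ n ∈ Icc 1 x, (n : ℝ) * ((n : ℝ)⁻¹ - ((n : ℝ) + 1)⁻¹)) +
        C * (((x : ℝ) + 1)⁻¹ + ∑ n ∈ Icc 1 x, ((n : ℝ)⁻¹ - ((n : ℝ) + 1)⁻¹)) := by
        rw [mul_add, mul_add, Finset.mul_sum, Finset.mul_sum]
        have : ∑ n ∈ Icc 1 x, (a * (n : ℝ) + C) * ((n : ℝ)⁻¹ - ((n : ℝ) + 1)⁻¹) =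
          ∑ n ∈ Icc 1 x, a * ((n : ℝ) * ((n : ℝ)⁻¹ - ((n : ℝ) + 1)⁻¹)) +
          ∑ n ∈ Icc 1 x, C * ((n : ℝ)⁻¹ - ((n : ℝ) + 1)⁻¹) := by
          rw [← Finset.sum_add_distrib]
          exact Finset.sum_congr rfl fun n _ => by ring
        rw [this]; ring
    _ = a * Hs x + C := by rw [← Hs_eq, ← one_eq, mul_one]

end Pool.Agent.helper5.WI
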