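import Mathlib
import Pool.Agent.helper5.WI.Mean

/-!
# Sets closed under divisors: logarithmic density and the zero-one law
-/

set_option autoImplicit false

namespace Pool.Agent.helper5.WI

open Finset Filter
open scoped Classical

/-- upper density -/
noncomputable def UD (S : Set ℕ) : ℝ := limsup (fun N : ℕ => cN S N / N) atTop

theorem cN_nonneg (S : Set ℕ) (N : ℕ) : 0 ≤ cN S N := by unfold cN; positivity

theorem cN_le (S : Set ℕ) (N : ℕ) : cN S N ≤ N := by
  unfold cN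
  have := Finset.card_filter_le (Icc 1 N) (· ∈ S)
  rw [Nat.card_Icc, Nat.add_sub_cancel] at this
  exact_mod_cast this

theorem q_nonneg (S : Set ℕ) (N : ℕ) : 0 ≤ cN S N / N := by
  have := cN_nonneg S N
  positivity

theorem q_le_one (S : Set ℕ) (N : ℕ) : cN S N / N ≤ 1 := by
  rcases Nat.eq_zero_or_pos N with h | h
  · subst h; simp
  · rw [div_le_one (by exact_mod_cast h)]; exact cN_le S N

theorem bdd (S : Set ℕ) : IsBoundedUnder (· ≤ ·) atTop (fun N : ℕ => cN S N / N) :=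
  isBoundedUnder_of ⟨1, q_le_one S⟩

theorem cobdd (S : Set ℕ) : IsCoboundedUnder (· ≤ ·) atTop (fun N : ℕ => cN S N / N) :=
  (isBoundedUnder_of ⟨0, q_nonneg S⟩ : IsBoundedUnder (· ≥ ·) atTop
    (fun N : ℕ => cN S N / N)).isCoboundedUnder_le

theorem UD_nonneg (S : Set ℕ) : 0 ≤ UD S := by
  refine le_limsup_of_frequently_le (Frequently.of_forall fun N => q_nonneg S N) (bdd S)

theorem UD_le {S : Set ℕ} {a C : ℝ} (h : ∀ N, cN S N ≤ a * N + C) : UD S ≤ a := by
  refine le_of_forall_pos_le_add fun ε hε => ?_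
  refine limsup_le_of_le (cobdd S) ?_
  obtain ⟨N0, hN0⟩ := exists_nat_gt (C / ε)
  filter_upwards [eventually_ge_atTop (N0 + 1)] with N hN
  have hN' : (0 : ℝ) < N := by exact_mod_cast (by omega : 0 < N)
  have h1 : C / ε < N := hN0.trans_le (by exact_mod_cast (by omega : N0 ≤ N))
  rw [div_lt_iff₀ hε] at h1
  rw [div_le_iff₀ hN']
  nlinarith [h N]

theorem UD_mono {S T : Set ℕ} (h : ∀ N, cN S N ≤ cN T N) : UD S ≤ UD T := by
  refine limsup_le_limsup (Eventually.of_forall fun N => ?_) (cobdd S) (bdd T)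
  exact div_le_div_of_nonneg_right (h N) (Nat.cast_nonneg N)

theorem Hs_harm (x : ℕ) : Hs x = ((harmonic x : ℚ) : ℝ) := by
  rw [harmonic_eq_sum_Icc]; unfold Hs; push_cast; rfl

theorem Hs_log (x : ℕ) : Real.log (x + 1) ≤ Hs x := by
  rw [Hs_harm]; exact_mod_cast log_add_one_le_harmonic x

theorem Hs_top : Tendsto Hs atTop atTop := by
  refine tendsto_atTop_mono Hs_log ?_
  refine Real.tendsto_log_atTop.comp ?_
  exact tendsto_atTop_add_const_right _ _ tendsto_natCast_atTop_atTop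

theorem ev_bound {S : Set ℕ} {c : ℝ} (h : UD S < c) : ∃ C : ℝ, ∀ n, cN S n ≤ c * n + C := by
  have h1 : ∀ᶠ n : ℕ in atTop, cN S n / n < c := eventually_lt_of_limsup_lt h (bdd S)
  obtain ⟨N0, hN0⟩ := eventually_atTop.1 h1
  have hc : 0 ≤ c := (UD_nonneg S).trans h.le
  refine ⟨N0, fun n => ?_⟩
  by_cases hn : N0 ≤ n ∧ 0 < n
  · have h2 := hN0 n hn.1
    have hn' : (0 : ℝ) < n := by exact_mod_cast hn.2
    rw [div_lt_iff₀ hn'] at h2
    have : (0 : ℝ) ≤ N0 := Nat.cast_nonneg _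
    linarith
  · have h2 := cN_le S n
    have h3 : (n : ℝ) ≤ N0 := by
      have : n ≤ N0 := by
        by_contra h'
        push Not at h'
        exact hn ⟨h'.le, by omega⟩
      exact_mod_cast this
    have : 0 ≤ c * (n : ℝ) := by positivity
    linarith

theorem le_UD {S : Set ℕ} {c : ℝ} (h : ∀ x, c * Hs x ≤ Ls S x) : c ≤ UD S := by
  by_contra hlt
  push Not at hlt
  obtain ⟨c', h1, h2⟩ := exists_between hlt
  obtain ⟨C, hC⟩ := ev_bound h1
  obtain ⟨x, hx⟩ := (Hs_top.eventually_gt_atTop (C / (c - c'))).exists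
  have h3 := Ls_le hC x
  have h4 := h x
  rw [div_lt_iff₀ (by linarith)] at hx
  linarith

section DC

variable {B : Set ℕ} (hB : ∀ n ∈ B, ∀ d, d ∣ n → d ∈ B)
include hB

theorem UD_le_mQ {Q : ℕ} (hQ : Q ≠ 0) : UD B ≤ mQ B Q :=
  UD_le (cN_le_mQ hB hQ)

theorem Ls_ge_UD (x : ℕ) : UD B * Hs x ≤ Ls B x := by
  have h1 := Ls_ge (Q := Nat.factorial x) (x := x) (Nat.factorial_ne_zero x) B hB
    (fun n h1 h2 => Nat.dvd_factorial h1 h2)
  have hH : 0 ≤ Hs x := by unfold Hs; positivity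
  exact (mul_le_mul_of_nonneg_right (UD_le_mQ hB (Nat.factorial_ne_zero x)) hH).trans h1

theorem exists_Q {c : ℝ} (hc : UD B < c) : ∃ Q : ℕ, Q ≠ 0 ∧ mQ B Q < c := by
  by_contra hcon
  push Not at hcon
  have : c ≤ UD B := by
    refine le_UD fun x => ?_
    have h1 := Ls_ge (Q := Nat.factorial x) (x := x) (Nat.factorial_ne_zero x) B hB
      (fun n h1 h2 => Nat.dvd_factorial h1 h2)
    have hH : 0 ≤ Hs x := by unfold Hs; positivity
    exact (mul_le_mul_of_nonneg_right (hcon _ (Nat.factorial_ne_zero x)) hH).trans h1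
  linarith

end DC

/-- all prime divisors exceed `y` -/
def Rough (y n : ℕ) : Prop := ∀ p : ℕ, p.Prime → p ∣ n → y < p

/-- all prime divisors are at most `y` -/
def Smooth (y n : ℕ) : Prop := ∀ p : ℕ, p.Prime → p ∣ n → p ≤ y

/-- `∏_{p ≤ y} (1 - 1/p)` -/
noncomputable def Pi (y : ℕ) : ℝ := ∏ p ∈ (range (y + 1)).filter Nat.Prime, (1 - (p : ℝ)⁻¹)

theorem smooth_dvd {u x y : ℕ} (hu : u ≠ 0) (hx : u ≤ x) (hs : Smooth y u) :
    u ∣ (Nat.factorial y) ^ x := by
  have hF : (Nat.factorial y) ≠ 0 := Nat.factorial_ne_zero y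
  rw [← Nat.factorization_le_iff_dvd hu (pow_ne_zero _ hF)]
  intro p
  by_cases hp : p.Prime ∧ p ∣ u
  · have h1 : u.factorization p < u := Nat.factorization_lt p hu
    have h2 : p ∣ Nat.factorial y := (Nat.Prime.dvd_factorial hp.1).2 (hs p hp.1 hp.2)
    have h3 : 0 < (Nat.factorial y).factorization p := hp.1.factorization_pos_of_dvd hF h2
    rw [Nat.factorization_pow]
    simp only [Finsupp.smul_apply, smul_eq_mul]
    nlinarith
  · have : u.factorization p = 0 := by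
      by_cases hp1 : p.Prime
      · exact Nat.factorization_eq_zero_of_not_dvd (fun h => hp ⟨hp1, h⟩)
      · exact Nat.factorization_eq_zero_of_not_prime _ hp1
    rw [this]; exact Nat.zero_le _

theorem rough_quot {n x y : ℕ} (hn : n ≠ 0) (hx : n ≤ x) :
    Rough y (n / n.gcd ((Nat.factorial y) ^ x)) := by
  intro p hp hpd
  by_contra hpy
  push Not at hpy
  have hF : (Nat.factorial y) ≠ 0 := Nat.factorial_ne_zero y
  have hg : n.gcd ((Nat.factorial y) ^ x) ∣ n := Nat.gcd_dvd_left _ _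
  have hv : n / n.gcd ((Nat.factorial y) ^ x) ≠ 0 := by
    have := Nat.div_pos (Nat.le_of_dvd (Nat.pos_of_ne_zero hn) hg)
      (Nat.gcd_pos_of_pos_left _ (Nat.pos_of_ne_zero hn))
    exact this.ne'
  have h1 := hp.factorization_pos_of_dvd hv hpd
  rw [Nat.factorization_div hg, Nat.factorization_gcd hn (pow_ne_zero _ hF),
    Nat.factorization_pow] at h1
  simp only [Finsupp.coe_tsub, Pi.sub_apply, Finsupp.inf_apply, Finsupp.smul_apply,
    smul_eq_mul] at h1
  have h2 : n.factorization p < n := Nat.factorization_lt p hn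
  have h3 : 0 < (Nat.factorial y).factorization p :=
    hp.factorization_pos_of_dvd hF ((Nat.Prime.dvd_factorial hp).2 hpy)
  have h4 : n.factorization p ≤ x * (Nat.factorial y).factorization p := by nlinarith
  rw [inf_eq_left.2 h4] at h1
  omega

/-- the elements of `B` without prime divisors up to `y` -/
def RoughIn (B : Set ℕ) (y : ℕ) : Set ℕ := {n | n ∈ B ∧ Rough y n}

theorem mem_RoughIn {B : Set ℕ} {y n : ℕ} (h1 : n ∈ B) (h2 : Rough y n) : n ∈ RoughIn B y :=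
  ⟨h1, h2⟩

/-- harmonic sum over the smooth elements -/
noncomputable def Us (B : Set ℕ) (y x : ℕ) : ℝ :=
  ∑ u ∈ (Icc 1 x).filter (fun u => u ∈ B ∧ Smooth y u), (u : ℝ)⁻¹

theorem Ls_split {B : Set ℕ} (hB : ∀ n ∈ B, ∀ d, d ∣ n → d ∈ B) (y x : ℕ) :
    Ls B x ≤ Us B y x * Ls (RoughIn B y) x := by
  set W := (Nat.factorial y) ^ x with hW
  have hF : (Nat.factorial y) ≠ 0 := Nat.factorial_ne_zero y
  unfold Ls Us
  rw [Finset.sum_mul_sum, ← Finset.sum_product']
  have hinj : Set.InjOn (fun n : ℕ => (n.gcd W, n / n.gcd W)) ((Icc 1 x).filter (· ∈ B) : Finset ℕ) := by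
    intro a _ b _ hab
    have h1 : a.gcd W = b.gcd W := (Prod.ext_iff.1 hab).1
    have h2 : a / a.gcd W = b / b.gcd W := (Prod.ext_iff.1 hab).2
    calc a = a.gcd W * (a / a.gcd W) := (Nat.mul_div_cancel' (Nat.gcd_dvd_left _ _)).symm
      _ = b.gcd W * (b / b.gcd W) := by rw [h1, ← h1, h2, h1]
      _ = b := Nat.mul_div_cancel' (Nat.gcd_dvd_left _ _)
  have hsum : ∑ n ∈ (Icc 1 x).filter (· ∈ B), (n : ℝ)⁻¹ =
      ∑ z ∈ ((Icc 1 x).filter (· ∈ B)).image (fun n : ℕ => (n.gcd W, n / n.gcd W)),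
        (z.1 : ℝ)⁻¹ * (z.2 : ℝ)⁻¹ := by
    rw [Finset.sum_image hinj]
    refine Finset.sum_congr rfl fun n _ => ?_
    rw [← mul_inv, ← Nat.cast_mul, Nat.mul_div_cancel' (Nat.gcd_dvd_left _ _)]
  rw [hsum]
  refine Finset.sum_le_sum_of_subset_of_nonneg ?_ (fun z _ _ => by positivity)
  intro z hz
  obtain ⟨n, hn, rfl⟩ := mem_image.1 hz
  have hn1 := mem_filter.1 hn
  have hn2 := mem_Icc.1 hn1.1
  have hn0 : n ≠ 0 := by omega
  have hg0 : 0 < n.gcd W := Nat.gcd_pos_of_pos_left _ (Nat.pos_of_ne_zero hn0)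
  have hgd : n.gcd W ∣ n := Nat.gcd_dvd_left _ _
  have hqd : n / n.gcd W ∣ n := Nat.div_dvd_of_dvd hgd
  have hq0 : 0 < n / n.gcd W := Nat.div_pos (Nat.le_of_dvd (by omega) hgd) hg0
  refine mem_product.2 ⟨mem_filter.2 ⟨mem_Icc.2 ⟨hg0, (Nat.le_of_dvd (by omega) hgd).trans hn2.2⟩,
    hB _ hn1.2 _ hgd, ?_⟩, mem_filter.2 ⟨mem_Icc.2 ⟨hq0, (Nat.le_of_dvd (by omega) hqd).trans hn2.2⟩,
    mem_RoughIn (hB _ hn1.2 _ hqd) (rough_quot hn0 hn2.2)⟩⟩
  intro p hp hpd
  have h1 : p ∣ W := hpd.trans (Nat.gcd_dvd_right _ _)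
  exact (Nat.Prime.dvd_factorial hp).1 (hp.dvd_of_dvd_pow h1)

theorem Us_le (B : Set ℕ) (y x : ℕ) :
    Us B y x * Pi y ≤ mQ B ((Nat.factorial y) ^ (x + 1)) := by
  set F := Nat.factorial y with hFdef
  have hF : F ≠ 0 := Nat.factorial_ne_zero y
  have hQ : F ^ (x + 1) ≠ 0 := pow_ne_zero _ hF
  rw [mQ_eq hQ]
  unfold Us
  rw [Finset.sum_mul]
  have hsub : (Icc 1 x).filter (fun u => u ∈ B ∧ Smooth y u) ⊆
      (F ^ (x + 1)).divisors.filter (· ∈ B) := by
    intro u hu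
    have hu1 := mem_filter.1 hu
    have hu2 := mem_Icc.1 hu1.1
    have h1 := smooth_dvd (by omega) hu2.2 hu1.2.2
    exact mem_filter.2 ⟨Nat.mem_divisors.2 ⟨h1.trans (pow_dvd_pow _ (by omega)), hQ⟩, hu1.2.1⟩
  refine le_trans (Finset.sum_le_sum (g := fun u : ℕ => (u : ℝ)⁻¹ * gQ (F ^ (x + 1)) u) ?_)
    (Finset.sum_le_sum_of_subset_of_nonneg hsub (fun u _ _ => mul_nonneg (by positivity)
      (gQ_nonneg _ _)))
  intro u hu
  have hu1 := mem_filter.1 hu
  have hu2 := mem_Icc.1 hu1.1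
  have h1 : u ∣ F ^ x := smooth_dvd (by omega) hu2.2 hu1.2.2
  have h2 : F ^ (x + 1) / u = F * (F ^ x / u) := by
    rw [pow_succ, mul_comm, Nat.mul_div_assoc _ h1]
  have h3 : F ^ (x + 1) / u ≠ 0 := by
    rw [h2]
    have : 0 < F ^ x / u := Nat.div_pos (Nat.le_of_dvd (Nat.pos_of_ne_zero (pow_ne_zero _ hF)) h1)
      (by omega)
    positivity
  have h4 : gQ (F ^ (x + 1)) u = Pi y := by
    unfold gQ
    rw [phi_ratio h3]
    unfold Pi
    congr 1
    ext p
    simp only [Nat.mem_primeFactors, mem_filter, mem_range]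
    constructor
    · rintro ⟨hp, hpd, _⟩
      refine ⟨?_, hp⟩
      have h5 : p ∣ F ^ (x + 1) := hpd.trans (Nat.div_dvd_of_dvd (h1.trans (pow_dvd_pow _ (by omega))))
      have := (Nat.Prime.dvd_factorial hp).1 (hp.dvd_of_dvd_pow h5)
      omega
    · rintro ⟨hp1, hp⟩
      refine ⟨hp, ?_, h3⟩
      rw [h2]
      exact ((Nat.Prime.dvd_factorial hp).2 (by omega)).trans (dvd_mul_right _ _)
  rw [h4]

theorem Pi_pos (y : ℕ) : 0 < Pi y := by
  unfold Pi
  refine Finset.prod_pos fun p hp => ?_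
  have hp' := (mem_filter.1 hp).2
  have : (1 : ℝ) < p := by exact_mod_cast hp'.one_lt
  have := inv_lt_one_of_one_lt₀ this
  linarith

/-- The zero-one law. -/
theorem zero_one {B : Set ℕ} (hB : ∀ n ∈ B, ∀ d, d ∣ n → d ∈ B) (hpos : 0 < UD B)
    {ε : ℝ} (hε : 0 < ε) :
    ∃ y0 : ℕ, ∀ y, y0 ≤ y → ∀ x : ℕ,
      (1 - ε) * Pi y * Hs x ≤ Ls (RoughIn B y) x := by
  by_cases hε1 : ε < 1
  · have h1 : UD B < UD B / (1 - ε) := by
      rw [lt_div_iff₀ (by linarith)]
      nlinarith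
    obtain ⟨Q, hQ, hQ2⟩ := exists_Q hB h1
    refine ⟨Q, fun y hy x => ?_⟩
    have hd : Q ∣ (Nat.factorial y) ^ (x + 1) :=
      (Nat.dvd_factorial (Nat.pos_of_ne_zero hQ) hy).trans (dvd_pow_self _ (by omega))
    have h2 := mQ_anti hB (pow_ne_zero (x + 1) (Nat.factorial_ne_zero y)) hd
    have h3 := Us_le B y x
    have h4 := Ls_split hB y x
    have h5 := Ls_ge_UD hB x
    set L := Ls (RoughIn B y) x with hL
    have hL0 : 0 ≤ L := by rw [hL]; unfold Ls; positivity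
    have hPi := Pi_pos y
    have h6 : UD B * Hs x * Pi y ≤ L * (UD B / (1 - ε)) := by
      calc UD B * Hs x * Pi y ≤ (Us B y x * L) * Pi y :=
            mul_le_mul_of_nonneg_right (h5.trans h4) hPi.le
        _ = L * (Us B y x * Pi y) := by ring
        _ ≤ L * (UD B / (1 - ε)) := mul_le_mul_of_nonneg_left
            ((h3.trans h2).trans hQ2.le) hL0
    have h7 : UD B * ((1 - ε) * Pi y * Hs x) ≤ UD B * L := by
      have h8 : (1 - ε) * (L * (UD B / (1 - ε))) = UD B * L := by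
        have : (1 - ε) ≠ 0 := by linarith
        field_simp
      calc UD B * ((1 - ε) * Pi y * Hs x) = (1 - ε) * (UD B * Hs x * Pi y) := by ring
        _ ≤ (1 - ε) * (L * (UD B / (1 - ε))) := mul_le_mul_of_nonneg_left h6 (by linarith)
        _ = UD B * L := h8
    exact le_of_mul_le_mul_left h7 hpos
  · push Not at hε1
    refine ⟨0, fun y _ x => ?_⟩
    have h1 : 0 ≤ Ls (RoughIn B y) x := by unfold Ls; positivity
    have h2 : (1 - ε) * Pi y * Hs x ≤ 0 := by
      have hH : 0 ≤ Hs x := by unfold Hs; positivity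
      have := Pi_pos y
      have h3 : 0 ≤ Pi y * Hs x := by positivity
      nlinarith
    linarith

/-- The logarithmic density of a set closed under divisors exists and is the upper density. -/
theorem log_density {B : Set ℕ} (hB : ∀ n ∈ B, ∀ d, d ∣ n → d ∈ B) :
    Tendsto (fun x : ℕ => Ls B x / Hs x) atTop (nhds (UD B)) := by
  rw [Metric.tendsto_atTop]
  intro ε hε
  obtain ⟨C, hC⟩ := ev_bound (S := B) (c := UD B + ε / 2) (by linarith)
  have h1 := Ls_le hC
  obtain ⟨N, hN⟩ := eventually_atTop.1 (Hs_top.eventually_gt_atTop (max 1 (2 * C / ε)))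
  refine ⟨N, fun x hx => ?_⟩
  have hx' := hN x hx
  have hH1 : 1 < Hs x := (le_max_left _ _).trans_lt hx'
  have hH2 : 2 * C / ε < Hs x := (le_max_right _ _).trans_lt hx'
  rw [div_lt_iff₀ hε] at hH2
  have hH0 : 0 < Hs x := by linarith
  have h2 := h1 x
  have h3 := Ls_ge_UD hB x
  rw [Real.dist_eq, abs_lt]
  constructor
  · have : UD B ≤ Ls B x / Hs x := by rw [le_div_iff₀ hH0]; exact h3
    linarith
  · have : Ls B x / Hs x < UD B + ε := by
      rw [div_lt_iff₀ hH0]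
      nlinarith
    linarith

end Pool.Agent.helper5.WI
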