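import Mathlib
import Pool.Agent.helper5.WI.ZeroOne

/-!
# Sets closed under divisors: the hereditary property
-/

set_option autoImplicit false

namespace Pool.Agent.helper5.WI

open Finset Filter
open scoped Classical

theorem le_UD_freq {S : Set ℕ} {c : ℝ} (h : ∃ᶠ x in atTop, c * Hs x ≤ Ls S x) : c ≤ UD S := by
  by_contra hlt
  push Not at hlt
  obtain ⟨c', h1, h2⟩ := exists_between hlt
  obtain ⟨C, hC⟩ := ev_bound h1
  obtain ⟨x, hx1, hx⟩ := (h.and_eventually (Hs_top.eventually_gt_atTop (C / (c - c')))).exists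
  have h3 := Ls_le hC x
  rw [div_lt_iff₀ (by linarith)] at hx
  linarith

theorem Hs_nonneg (x : ℕ) : 0 ≤ Hs x := by unfold Hs; positivity

theorem Ls_nonneg (S : Set ℕ) (x : ℕ) : 0 ≤ Ls S x := by unfold Ls; positivity

theorem Ls_mono {S T : Set ℕ} (h : S ⊆ T) (x : ℕ) : Ls S x ≤ Ls T x := by
  unfold Ls
  refine Finset.sum_le_sum_of_subset_of_nonneg ?_ (fun n _ _ => by positivity)
  intro n hn
  exact mem_filter.2 ⟨(mem_filter.1 hn).1, h (mem_filter.1 hn).2⟩

theorem Ls_le_Hs (S : Set ℕ) (x : ℕ) : Ls S x ≤ Hs x := by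
  unfold Ls Hs
  exact Finset.sum_le_sum_of_subset_of_nonneg (Finset.filter_subset _ _)
    (fun n _ _ => by positivity)

theorem Ls_union (S T U : Set ℕ) (h : ∀ n, 0 < n → n ∈ U → n ∈ S ∨ n ∈ T) (x : ℕ) :
    Ls U x ≤ Ls S x + Ls T x := by
  unfold Ls
  rw [Finset.sum_filter, Finset.sum_filter, Finset.sum_filter, ← Finset.sum_add_distrib]
  refine Finset.sum_le_sum fun n hn => ?_
  have hn1 := mem_Icc.1 hn
  have hpos : (0 : ℝ) ≤ (n : ℝ)⁻¹ := by positivity
  by_cases hU : n ∈ U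
  · rcases h n (by omega) hU with h1 | h1
    · rw [if_pos hU, if_pos h1]; split_ifs <;> linarith
    · rw [if_pos hU, if_pos h1]; split_ifs <;> linarith
  · rw [if_neg hU]; split_ifs <;> linarith

/-- the rough numbers -/
def RoughAll (y : ℕ) : Set ℕ := {n | Rough y n}

/-- the rough numbers outside `B` -/
def RoughOut (B : Set ℕ) (y : ℕ) : Set ℕ := {n | n ∉ B ∧ Rough y n}

theorem RoughAll_dc (y : ℕ) : ∀ n ∈ RoughAll y, ∀ d, d ∣ n → d ∈ RoughAll y :=
  fun _ hn _ hd p hp hpd => hn p hp (hpd.trans hd)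

theorem Ls_RoughAll (y x : ℕ) : Ls (RoughAll y) x ≤ Pi y * Hs x + (Nat.factorial y : ℕ) := by
  have hQ : Nat.factorial y ≠ 0 := Nat.factorial_ne_zero y
  have h1 := Ls_le (cN_le_mQ (RoughAll_dc y) hQ) x
  have h2 : mQ (RoughAll y) (Nat.factorial y) ≤ Pi y := by
    have h3 := phi_ratio hQ
    have h5 : (Nat.factorial y).primeFactors = (range (y + 1)).filter Nat.Prime := by
      ext p
      simp only [Nat.mem_primeFactors, mem_filter, mem_range]
      constructor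
      · rintro ⟨hp, hpd, _⟩
        exact ⟨by have := (Nat.Prime.dvd_factorial hp).1 hpd; omega, hp⟩
      · rintro ⟨hp1, hp⟩
        exact ⟨hp, (Nat.Prime.dvd_factorial hp).2 (by omega), hQ⟩
    rw [h5] at h3
    unfold Pi
    rw [← h3]
    unfold mQ
    refine div_le_div_of_nonneg_right ?_ (Nat.cast_nonneg _)
    have h4 : ((range (Nat.factorial y)).filter
        (fun n => (Nat.factorial y).gcd n ∈ RoughAll y)).card ≤ Nat.totient (Nat.factorial y) := by
      rw [Nat.totient]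
      refine Finset.card_le_card ?_
      intro n hn
      have hn' := mem_filter.1 hn
      refine mem_filter.2 ⟨hn'.1, ?_⟩
      by_contra hc
      obtain ⟨p, hp, hpd⟩ := Nat.exists_prime_and_dvd hc
      have h6 := hn'.2 p hp hpd
      have h7 := (Nat.Prime.dvd_factorial hp).1 (hpd.trans (Nat.gcd_dvd_left _ _))
      omega
    exact_mod_cast h4
  have := Hs_nonneg x
  nlinarith

theorem Ls_rough_split (B : Set ℕ) (y x : ℕ) :
    Ls (RoughIn B y) x + Ls (RoughOut B y) x = Ls (RoughAll y) x := by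
  unfold Ls
  rw [Finset.sum_filter, Finset.sum_filter, Finset.sum_filter, ← Finset.sum_add_distrib]
  refine Finset.sum_congr rfl fun n _ => ?_
  by_cases h1 : n ∈ B <;> by_cases h2 : Rough y n <;>
    simp [RoughIn, RoughOut, RoughAll, h1, h2]

/-- quotient of a set by an integer -/
def Quo (T : Set ℕ) (u : ℕ) : Set ℕ := {v | u * v ∈ T}

/-- harmonic sum over the smooth numbers -/
theorem Ls_split_gen (T : Set ℕ) (y x : ℕ) :
    Ls T x ≤ ∑ u ∈ (Icc 1 x).filter (fun u => Smooth y u),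
      (u : ℝ)⁻¹ * Ls (RoughAll y ∩ Quo T u) x := by
  set W := (Nat.factorial y) ^ x with hW
  have hF : (Nat.factorial y) ≠ 0 := Nat.factorial_ne_zero y
  have hrhs : ∑ u ∈ (Icc 1 x).filter (fun u => Smooth y u),
      (u : ℝ)⁻¹ * Ls (RoughAll y ∩ Quo T u) x =
      ∑ z ∈ ((Icc 1 x).filter (fun u => Smooth y u) ×ˢ Icc 1 x).filter
        (fun z => z.2 ∈ RoughAll y ∩ Quo T z.1), (z.1 : ℝ)⁻¹ * (z.2 : ℝ)⁻¹ := by
    conv_rhs => rw [Finset.sum_filter, Finset.sum_product]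
    refine Finset.sum_congr rfl fun u _ => ?_
    unfold Ls
    rw [Finset.mul_sum, Finset.sum_filter]
    refine Finset.sum_congr rfl fun v _ => ?_
    by_cases h : v ∈ RoughAll y ∩ Quo T u
    · exact (if_pos h).trans (if_pos h).symm
    · exact (if_neg h).trans (if_neg h).symm
  rw [hrhs]
  unfold Ls
  have hinj : Set.InjOn (fun n : ℕ => (n.gcd W, n / n.gcd W)) ((Icc 1 x).filter (· ∈ T) : Finset ℕ) := by
    intro a _ b _ hab
    have h1 : a.gcd W = b.gcd W := (Prod.ext_iff.1 hab).1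
    have h2 : a / a.gcd W = b / b.gcd W := (Prod.ext_iff.1 hab).2
    calc a = a.gcd W * (a / a.gcd W) := (Nat.mul_div_cancel' (Nat.gcd_dvd_left _ _)).symm
      _ = b.gcd W * (b / b.gcd W) := by rw [h1, ← h1, h2, h1]
      _ = b := Nat.mul_div_cancel' (Nat.gcd_dvd_left _ _)
  have hsum : ∑ n ∈ (Icc 1 x).filter (· ∈ T), (n : ℝ)⁻¹ =
      ∑ z ∈ ((Icc 1 x).filter (· ∈ T)).image (fun n : ℕ => (n.gcd W, n / n.gcd W)),
        (z.1 : ℝ)⁻¹ * (z.2 : ℝ)⁻¹ := by
    rw [Finset.sum_image hinj]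
    refine Finset.sum_congr rfl fun n _ => ?_
    rw [← mul_inv, ← Nat.cast_mul, Nat.mul_div_cancel' (Nat.gcd_dvd_left _ _)]
  rw [hsum]
  refine Finset.sum_le_sum_of_subset_of_nonneg ?_ (fun z _ _ => by positivity)
  intro z hz
  obtain ⟨n, hn, rfl⟩ := mem_image.1 hz
  have hn1 := mem_filter.1 hn
  have hn2 := mem_Icc.1 hn1.1
  have hn0 : n ≠ 0 := by omega
  have hg0 : 0 < n.gcd W := Nat.gcd_pos_of_pos_left _ (Nat.pos_of_ne_zero hn0)
  have hgd : n.gcd W ∣ n := Nat.gcd_dvd_left _ _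
  have hqd : n / n.gcd W ∣ n := Nat.div_dvd_of_dvd hgd
  have hq0 : 0 < n / n.gcd W := Nat.div_pos (Nat.le_of_dvd (by omega) hgd) hg0
  refine mem_filter.2 ⟨mem_product.2 ⟨mem_filter.2 ⟨mem_Icc.2 ⟨hg0,
    (Nat.le_of_dvd (by omega) hgd).trans hn2.2⟩, ?_⟩,
    mem_Icc.2 ⟨hq0, (Nat.le_of_dvd (by omega) hqd).trans hn2.2⟩⟩, rough_quot hn0 hn2.2, ?_⟩
  · intro p hp hpd
    have h1 : p ∣ W := hpd.trans (Nat.gcd_dvd_right _ _)
    exact (Nat.Prime.dvd_factorial hp).1 (hp.dvd_of_dvd_pow h1)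
  · show n.gcd W * (n / n.gcd W) ∈ T
    rw [Nat.mul_div_cancel' hgd]
    exact hn1.2

/-- harmonic sums over smooth numbers -/
noncomputable def Sm (y x : ℕ) : ℝ := ∑ u ∈ (Icc 1 x).filter (fun u => Smooth y u), (u : ℝ)⁻¹

theorem Sm_le (y x : ℕ) : Sm y x ≤ 1 / Pi y := by
  rw [le_div_iff₀ (Pi_pos y)]
  have h := Us_le Set.univ y x
  have h2 : mQ Set.univ ((Nat.factorial y) ^ (x + 1)) = 1 := by
    unfold mQ
    have : (((Nat.factorial y) ^ (x + 1) : ℕ) : ℝ) ≠ 0 := by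
      exact_mod_cast pow_ne_zero _ (Nat.factorial_ne_zero y)
    simp only [Set.mem_univ, Finset.filter_true, card_range]
    exact div_self this
  rw [h2] at h
  unfold Us at h
  simpa [Sm] using h

theorem Sm_mono (y : ℕ) : Monotone (Sm y) := by
  intro a b hab
  unfold Sm
  refine Finset.sum_le_sum_of_subset_of_nonneg ?_ (fun n _ _ => by positivity)
  intro n hn
  have h1 := mem_filter.1 hn
  have h2 := mem_Icc.1 h1.1
  exact mem_filter.2 ⟨mem_Icc.2 ⟨h2.1, h2.2.trans hab⟩, h1.2⟩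

theorem Sm_tail (y : ℕ) {ε : ℝ} (hε : 0 < ε) : ∃ M : ℕ, ∀ x, Sm y x ≤ Sm y M + ε := by
  have hb : BddAbove (Set.range (Sm y)) := ⟨1 / Pi y, by rintro _ ⟨x, rfl⟩; exact Sm_le y x⟩
  obtain ⟨_, ⟨M, rfl⟩, hM⟩ := exists_lt_of_lt_csSup (Set.range_nonempty (Sm y))
    (show sSup (Set.range (Sm y)) - ε < sSup (Set.range (Sm y)) by linarith)
  refine ⟨M, fun x => ?_⟩
  have := le_csSup hb ⟨x, rfl⟩
  linarith

/-- Main estimate: a set is controlled by its intersections with finitely many dilates of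
`B`. -/
theorem main_est {B : Set ℕ} (hB : ∀ n ∈ B, ∀ d, d ∣ n → d ∈ B) (hpos : 0 < UD B)
    {ε : ℝ} (hε : 0 < ε) : ∃ (M : ℕ) (C : ℝ), ∀ (T : Set ℕ) (x : ℕ), Ls T x ≤
      (∑ u ∈ Icc 1 M, Ls (B ∩ Quo T u) x) + 2 * ε * Hs x + C := by
  obtain ⟨y, hy⟩ := zero_one hB hpos hε
  have hy' := hy y le_rfl
  obtain ⟨M, hM⟩ := Sm_tail y hε
  have hPi := Pi_pos y
  set F : ℝ := ((Nat.factorial y : ℕ) : ℝ) with hFdef
  have hF0 : 0 ≤ F := Nat.cast_nonneg _
  -- the rough numbers outside `B`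
  have hout : ∀ x, Ls (RoughOut B y) x ≤ ε * Pi y * Hs x + F := by
    intro x
    have h1 := Ls_rough_split B y x
    have h2 := Ls_RoughAll y x
    have h3 := hy' x
    have h4 : (1 - ε) * Pi y * Hs x = Pi y * Hs x - ε * Pi y * Hs x := by ring
    linarith
  -- main estimate
  have hmain : ∀ (T : Set ℕ) (x : ℕ), Ls T x ≤
      (∑ u ∈ Icc 1 M, Ls (B ∩ Quo T u) x) + 2 * ε * Hs x + F / Pi y := by
    intro T x
    have hH := Hs_nonneg x
    have h1 := Ls_split_gen T y x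
    have h2 : ∑ u ∈ (Icc 1 x).filter (fun u => Smooth y u),
        (u : ℝ)⁻¹ * Ls (RoughAll y ∩ Quo T u) x ≤
        ∑ u ∈ (Icc 1 x).filter (fun u => Smooth y u),
          ((u : ℝ)⁻¹ * Ls (B ∩ Quo T u) x + (u : ℝ)⁻¹ * Ls (RoughOut B y) x) := by
      refine Finset.sum_le_sum fun u _ => ?_
      rw [← mul_add]
      refine mul_le_mul_of_nonneg_left ?_ (by positivity)
      refine Ls_union _ _ _ (fun n _ hn => ?_) x
      by_cases hb : n ∈ B
      · exact Or.inl ⟨hb, hn.2⟩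
      · exact Or.inr ⟨hb, hn.1⟩
    rw [Finset.sum_add_distrib, ← Finset.sum_mul] at h2
    have h3 : (∑ u ∈ (Icc 1 x).filter (fun u => Smooth y u), (u : ℝ)⁻¹) *
        Ls (RoughOut B y) x ≤ ε * Hs x + F / Pi y := by
      have h5 : (∑ u ∈ (Icc 1 x).filter (fun u => Smooth y u), (u : ℝ)⁻¹) ≤ 1 / Pi y := Sm_le y x
      calc _ ≤ 1 / Pi y * (ε * Pi y * Hs x + F) :=
            mul_le_mul h5 (hout x) (Ls_nonneg _ _) (by positivity)
        _ = ε * Hs x + F / Pi y := by field_simp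
    have h4 : ∑ u ∈ (Icc 1 x).filter (fun u => Smooth y u), (u : ℝ)⁻¹ * Ls (B ∩ Quo T u) x ≤
        (∑ u ∈ Icc 1 M, Ls (B ∩ Quo T u) x) + ε * Hs x := by
      -- split at `M`
      rw [← Finset.sum_filter_add_sum_filter_not ((Icc 1 x).filter (fun u => Smooth y u))
        (fun u => u ≤ M)]
      refine add_le_add ?_ ?_
      · refine le_trans (Finset.sum_le_sum (g := fun u : ℕ => Ls (B ∩ Quo T u) x) ?_)
          (Finset.sum_le_sum_of_subset_of_nonneg ?_ (fun u _ _ => Ls_nonneg _ _))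
        · intro u hu
          have h6 := (mem_Icc.1 (mem_filter.1 (mem_filter.1 hu).1).1).1
          have h7 : (u : ℝ)⁻¹ ≤ 1 := inv_le_one_of_one_le₀ (by exact_mod_cast h6)
          calc (u : ℝ)⁻¹ * Ls (B ∩ Quo T u) x ≤ 1 * Ls (B ∩ Quo T u) x :=
                mul_le_mul_of_nonneg_right h7 (Ls_nonneg _ _)
            _ = _ := one_mul _
        · intro u hu
          have h6 := (mem_Icc.1 (mem_filter.1 (mem_filter.1 hu).1).1).1
          exact mem_Icc.2 ⟨h6, (mem_filter.1 hu).2⟩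
      · calc _ ≤ ∑ u ∈ ((Icc 1 x).filter (fun u => Smooth y u)).filter (fun u => ¬ u ≤ M),
              (u : ℝ)⁻¹ * Hs x := by
              refine Finset.sum_le_sum fun u _ => ?_
              exact mul_le_mul_of_nonneg_left (Ls_le_Hs _ _) (by positivity)
          _ = (∑ u ∈ ((Icc 1 x).filter (fun u => Smooth y u)).filter (fun u => ¬ u ≤ M),
              (u : ℝ)⁻¹) * Hs x := by rw [Finset.sum_mul]
          _ ≤ ε * Hs x := by
              refine mul_le_mul_of_nonneg_right ?_ hH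
              by_cases hxM : M ≤ x
              · have h8 := hM x
                have h9 : Sm y x = Sm y M +
                    ∑ u ∈ ((Icc 1 x).filter (fun u => Smooth y u)).filter (fun u => ¬ u ≤ M),
                      (u : ℝ)⁻¹ := by
                  unfold Sm
                  rw [← Finset.sum_filter_add_sum_filter_not
                    ((Icc 1 x).filter (fun u => Smooth y u)) (fun u => u ≤ M)]
                  congr 1
                  refine Finset.sum_congr ?_ (fun _ _ => rfl)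
                  ext u
                  simp only [mem_filter, mem_Icc]
                  constructor
                  · rintro ⟨⟨⟨h10, _⟩, h11⟩, h12⟩; exact ⟨⟨h10, h12⟩, h11⟩
                  · rintro ⟨⟨h10, h12⟩, h11⟩; exact ⟨⟨⟨h10, h12.trans hxM⟩, h11⟩, h12⟩
                linarith
              · push Not at hxM
                have : ((Icc 1 x).filter (fun u => Smooth y u)).filter (fun u => ¬ u ≤ M) = ∅ := by
                  rw [Finset.filter_eq_empty_iff]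
                  intro u hu h
                  have := (mem_Icc.1 (mem_filter.1 hu).1).2
                  omega
                rw [this, Finset.sum_empty]
                exact hε.le
    have h10 : 2 * ε * Hs x = ε * Hs x + ε * Hs x := by ring
    linarith
  exact ⟨M, F / Pi y, hmain⟩

theorem Ls_eq_zero {S : Set ℕ} (h : ∀ n, n ∉ S) (x : ℕ) : Ls S x = 0 := by
  unfold Ls
  refine Finset.sum_eq_zero fun v hv => ?_
  exact absurd (mem_filter.1 hv).2 (h v)

/-- The integers outside the first `M` dilates of `B`. -/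
def Missed (B : Set ℕ) (M : ℕ) : Set ℕ :=
  {n | ∀ u v : ℕ, 1 ≤ u → u ≤ M → v ∈ B → n ≠ u * v}

/-- Finitely many dilates of `B` cover almost all integers. -/
theorem cover {B : Set ℕ} (hB : ∀ n ∈ B, ∀ d, d ∣ n → d ∈ B) (hpos : 0 < UD B)
    {ε : ℝ} (hε : 0 < ε) : ∃ (M : ℕ) (C : ℝ), ∀ x : ℕ, Ls (Missed B M) x ≤ ε * Hs x + C := by
  obtain ⟨M, C, h⟩ := main_est hB hpos (half_pos hε)
  refine ⟨M, C, fun x => ?_⟩
  have h1 := h (Missed B M) x
  have h2 : ∑ u ∈ Icc 1 M, Ls (B ∩ Quo (Missed B M) u) x = 0 := by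
    refine Finset.sum_eq_zero fun u hu => ?_
    have hu' := mem_Icc.1 hu
    exact Ls_eq_zero (fun v hv => absurd rfl (hv.2 u v hu'.1 hu'.2 hv.1)) x
  rw [h2] at h1
  linarith

/-- The hereditary property. -/
theorem hered {B : Set ℕ} (hB : ∀ n ∈ B, ∀ d, d ∣ n → d ∈ B) (hpos : 0 < UD B)
    (T : Set ℕ) {τ : ℝ} (hτ : 0 < τ) (hT : ∃ᶠ x in atTop, τ * Hs x ≤ Ls T x) :
    ∃ u : ℕ, 0 < u ∧ ∃ c : ℝ, 0 < c ∧ ∃ᶠ x in atTop, c * Hs x ≤ Ls (B ∩ Quo T u) x := by
  set ε := τ / 4 with hεdef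
  have hε : 0 < ε := by positivity
  obtain ⟨M, C, hmain0⟩ := main_est hB hpos hε
  have hmain : ∀ x, Ls T x ≤
      (∑ u ∈ Icc 1 M, Ls (B ∩ Quo T u) x) + 2 * ε * Hs x + C := fun x => hmain0 T x
  -- pigeonhole
  by_contra hcon
  push Not at hcon
  have hev : ∀ u ∈ Icc 1 M, ∀ᶠ x in atTop, Ls (B ∩ Quo T u) x < τ / (4 * (M + 1)) * Hs x := by
    intro u hu
    have h1 := hcon u (by have := (mem_Icc.1 hu).1; omega) (τ / (4 * (M + 1))) (by positivity)
    exact h1
  have hev2 : ∀ᶠ x in atTop, ∀ u ∈ Icc 1 M,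
      Ls (B ∩ Quo T u) x < τ / (4 * (M + 1)) * Hs x := by
    exact (Filter.eventually_all_finset _).2 hev
  obtain ⟨x, ⟨hx1, hx2⟩, hx3⟩ := ((hT.and_eventually hev2).and_eventually
    (Hs_top.eventually_gt_atTop (4 * (C) / τ))).exists
  have h1 : ∑ u ∈ Icc 1 M, Ls (B ∩ Quo T u) x ≤ τ / 4 * Hs x := by
    have h2 : ∑ u ∈ Icc 1 M, Ls (B ∩ Quo T u) x ≤ ∑ _u ∈ Icc 1 M, τ / (4 * (M + 1)) * Hs x :=
      Finset.sum_le_sum fun u hu => (hx2 u hu).le
    rw [Finset.sum_const, Nat.card_Icc, Nat.add_sub_cancel, nsmul_eq_mul] at h2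
    have hH := Hs_nonneg x
    have h3 : (M : ℝ) * (τ / (4 * (M + 1)) * Hs x) ≤ τ / 4 * Hs x := by
      rw [← mul_assoc]
      refine mul_le_mul_of_nonneg_right ?_ hH
      rw [mul_div_assoc', div_le_div_iff₀ (by positivity) (by norm_num)]
      nlinarith
    exact h2.trans h3
  have h2 := hmain x
  rw [div_lt_iff₀ hτ] at hx3
  have h3 : 2 * ε * Hs x = τ / 2 * Hs x := by rw [hεdef]; ring
  have h4 : τ * Hs x ≤ τ / 4 * Hs x + τ / 2 * Hs x + C := by linarith
  nlinarith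

end Pool.Agent.helper5.WI
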