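import Mathlib
import Pool.Agent.helper5.WI.ZeroOne

/-!
# The greedy independent set of a multiplicative sequence
-/

set_option autoImplicit false

namespace Pool.Agent.helper5.WI

open Finset Filter
open scoped Classical

variable (K : Type*) [Field K] [Algebra K ℝ] (f : ℕ → ℝ)

/-- the `n` whose value is not in the `K`-span of the earlier ones -/
def Bas : Set ℕ := {n | 0 < n ∧ f n ∉ Submodule.span K (f '' Set.Ico 1 n)}

theorem Bas_pos {n : ℕ} (hn : n ∈ Bas K f) : 0 < n := hn.1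

theorem Bas_dc (hf : ∀ m n : ℕ, 0 < m → 0 < n → f (m * n) = f m * f n) :
    ∀ n ∈ Bas K f, ∀ d, d ∣ n → d ∈ Bas K f := by
  intro n hn d hd
  by_contra hcon
  obtain ⟨k, rfl⟩ := hd
  have hd0 : 0 < d := Nat.pos_of_ne_zero (fun h => by have := hn.1; rw [h, zero_mul] at this; omega)
  have hk0 : 0 < k := Nat.pos_of_ne_zero (fun h => by have := hn.1; rw [h, mul_zero] at this; omega)
  have h1 : f d ∈ Submodule.span K (f '' Set.Ico 1 d) := by
    by_contra h2
    exact hcon ⟨hd0, h2⟩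
  apply hn.2
  rw [hf d k hd0 hk0]
  -- multiplication by `f k`
  have h3 : ∀ z ∈ Submodule.span K (f '' Set.Ico 1 d), z * f k ∈
      Submodule.span K (f '' Set.Ico 1 (d * k)) := by
    intro z hz
    induction hz using Submodule.span_induction with
    | mem z hz =>
      obtain ⟨m, hm, rfl⟩ := hz
      have hm' := Set.mem_Ico.1 hm
      rw [← hf m k (by omega) hk0]
      refine Submodule.subset_span ⟨m * k, Set.mem_Ico.2 ⟨?_, ?_⟩, rfl⟩
      · exact Nat.mul_pos (by omega) hk0
      · exact Nat.mul_lt_mul_of_pos_right hm'.2 hk0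
    | zero => rw [zero_mul]; exact Submodule.zero_mem _
    | add x y _ _ hx hy => rw [add_mul]; exact Submodule.add_mem _ hx hy
    | smul a x _ hx => rw [smul_mul_assoc]; exact Submodule.smul_mem _ _ hx
  exact h3 _ h1

theorem Bas_span (n : ℕ) (hn : 0 < n) :
    f n ∈ Submodule.span K (f '' {m | m ∈ Bas K f ∧ m ≤ n}) := by
  induction n using Nat.strong_induction_on with
  | _ n ih =>
    by_cases h : n ∈ Bas K f
    · exact Submodule.subset_span ⟨n, ⟨h, le_refl _⟩, rfl⟩
    · have h1 : f n ∈ Submodule.span K (f '' Set.Ico 1 n) := by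
        by_contra h2
        exact h ⟨hn, h2⟩
      refine (Submodule.span_le.2 ?_) h1
      rintro _ ⟨m, hm, rfl⟩
      have hm' := Set.mem_Ico.1 hm
      have h2 := ih m hm'.2 (by omega)
      refine (Submodule.span_mono ?_) h2
      rintro _ ⟨k, hk, rfl⟩
      exact ⟨k, ⟨hk.1, hk.2.trans hm'.2.le⟩, rfl⟩

theorem Bas_indep : LinearIndependent K (fun n : Bas K f => f n) := by
  rw [linearIndependent_iff']
  intro s g hg i hi
  by_contra hne
  have hnon : (s.filter (fun j => g j ≠ 0)).Nonempty := ⟨i, mem_filter.2 ⟨hi, hne⟩⟩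
  obtain ⟨j, hj, hmax⟩ := Finset.exists_max_image (s.filter (fun j => g j ≠ 0))
    (fun j : Bas K f => (j : ℕ)) hnon
  have hj' := mem_filter.1 hj
  apply j.2.2
  have h1 : ∑ i ∈ s.filter (fun j => g j ≠ 0), g i • f i = 0 := by
    rw [← hg]
    refine Finset.sum_subset (Finset.filter_subset _ _) ?_
    intro k hk hk'
    have : g k = 0 := by
      by_contra h
      exact hk' (mem_filter.2 ⟨hk, h⟩)
    rw [this, zero_smul]
  rw [← Finset.add_sum_erase _ _ hj] at h1
  have h2 : f j = -((g j)⁻¹ • ∑ i ∈ (s.filter (fun j => g j ≠ 0)).erase j, g i • f i) := by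
    have h3 : ∑ i ∈ (s.filter (fun j => g j ≠ 0)).erase j, g i • f i = -(g j • f j) := by
      linarith
    rw [h3, smul_neg, neg_neg, smul_smul, inv_mul_cancel₀ hj'.2, one_smul]
  rw [h2]
  refine Submodule.neg_mem _ (Submodule.smul_mem _ _ (Submodule.sum_mem _ ?_))
  intro k hk
  have hk1 := mem_erase.1 hk
  refine Submodule.smul_mem _ _ (Submodule.subset_span ⟨k, Set.mem_Ico.2 ⟨k.2.1, ?_⟩, rfl⟩)
  exact lt_of_le_of_ne (hmax k hk1.2) (fun h => hk1.1 (Subtype.ext h))

theorem Bas_max {S : Set ℕ} (hS : LinearIndependent K (fun n : S => f n)) (N : ℕ) :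
    ((Icc 1 N).filter (· ∈ S)).card ≤ ((Icc 1 N).filter (· ∈ Bas K f)).card := by
  have h1 : LinearIndependent K
      (fun n : {n // n ∈ (Icc 1 N).filter (· ∈ S)} => f n) := by
    have := hS.comp (fun n : {n // n ∈ (Icc 1 N).filter (· ∈ S)} =>
      (⟨n.1, (mem_filter.1 n.2).2⟩ : S)) (fun a b h => Subtype.ext (by
        have := congrArg (fun z : S => (z : ℕ)) h
        simpa using this))
    exact this
  have h2 := linearIndependent_le_span' _ h1
    ((((Icc 1 N).filter (· ∈ Bas K f)).image f : Finset ℝ) : Set ℝ) (by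
    rintro _ ⟨n, rfl⟩
    have hn := mem_filter.1 n.2
    have hn1 := mem_Icc.1 hn.1
    have h3 := Bas_span K f n.1 (by omega)
    refine (Submodule.span_mono ?_) h3
    rintro _ ⟨k, hk, rfl⟩
    rw [Finset.coe_image]
    exact ⟨k, Finset.mem_coe.2 (mem_filter.2 ⟨mem_Icc.2 ⟨hk.1.1, hk.2.trans hn1.2⟩, hk.1⟩), rfl⟩)
  have h3 : Cardinal.mk {n // n ∈ (Icc 1 N).filter (· ∈ S)} =
      (((Icc 1 N).filter (· ∈ S)).card : Cardinal) := by
    rw [Cardinal.mk_fintype, Fintype.card_coe]
  rw [h3] at h2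
  have h5 : Fintype.card ((((Icc 1 N).filter (· ∈ Bas K f)).image f : Finset ℝ) : Set ℝ) =
      (((Icc 1 N).filter (· ∈ Bas K f)).image f).card := by simp
  rw [h5] at h2
  have h4 : ((Icc 1 N).filter (· ∈ S)).card ≤ (((Icc 1 N).filter (· ∈ Bas K f)).image f).card := by
    exact_mod_cast h2
  exact h4.trans Finset.card_image_le

/-- Comparison of independent sets over `ℚ` and the greedy set over a number field. -/
theorem Bas_ext (L : IntermediateField ℚ ℝ) [FiniteDimensional ℚ L] {S : Set ℕ}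
    (hS : LinearIndependent ℚ (fun n : S => f n)) (N : ℕ) :
    ((Icc 1 N).filter (· ∈ S)).card ≤
      Module.finrank ℚ L * ((Icc 1 N).filter (· ∈ Bas L f)).card := by
  set F : Finset ℝ := ((Icc 1 N).filter (· ∈ Bas L f)).image f with hF
  set V : Submodule L ℝ := Submodule.span L (F : Set ℝ) with hV
  have hmem : ∀ n : {n // n ∈ (Icc 1 N).filter (· ∈ S)}, f n ∈ V := by
    intro n
    have hn := mem_filter.1 n.2
    have hn1 := mem_Icc.1 hn.1
    have h3 := Bas_span L f n.1 (by omega)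
    refine (Submodule.span_mono ?_) h3
    rintro _ ⟨k, hk, rfl⟩
    rw [hF, Finset.coe_image]
    exact ⟨k, Finset.mem_coe.2 (mem_filter.2 ⟨mem_Icc.2 ⟨hk.1.1, hk.2.trans hn1.2⟩, hk.1⟩), rfl⟩
  have h1 : LinearIndependent ℚ
      (fun n : {n // n ∈ (Icc 1 N).filter (· ∈ S)} => f n) :=
    hS.comp (fun n : {n // n ∈ (Icc 1 N).filter (· ∈ S)} =>
      (⟨n.1, (mem_filter.1 n.2).2⟩ : S)) (fun a b h => Subtype.ext (by
        have := congrArg (fun z : S => (z : ℕ)) h
        simpa using this))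
  have h2 : LinearIndependent ℚ
      (fun n : {n // n ∈ (Icc 1 N).filter (· ∈ S)} => (⟨f n, hmem n⟩ : V)) := by
    refine LinearIndependent.of_comp (V.subtype.restrictScalars ℚ) ?_
    exact h1
  have : Module.Finite L V := by
    rw [hV]; exact Module.Finite.span_finset L F
  have : Module.Finite ℚ V := Module.Finite.trans L V
  have h3 := h2.fintype_card_le_finrank
  rw [Fintype.card_coe, ← Module.finrank_mul_finrank ℚ L V] at h3
  have h4 : Module.finrank L V ≤ F.card := by
    rw [hV]; exact finrank_span_finset_le_card F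
  exact h3.trans (Nat.mul_le_mul_left _ (h4.trans Finset.card_image_le))

/-- Primes outside a set closed under divisors. -/
theorem prime_sum {B : Set ℕ} (hB : ∀ n ∈ B, ∀ d, d ∣ n → d ∈ B) (hpos : 0 < UD B)
    (T : Finset ℕ) (hT : ∀ p ∈ T, p.Prime ∧ p ∉ B) :
    ∑ p ∈ T, (p : ℝ)⁻¹ ≤ - Real.log (UD B) := by
  set Q := ∏ p ∈ T, p with hQdef
  have hQ : Q ≠ 0 := Finset.prod_ne_zero_iff.2 fun p hp => (hT p hp).1.ne_zero
  have h1 := UD_le_mQ hB hQ
  have hpf : Q.primeFactors = T := Nat.primeFactors_prod fun p hp => (hT p hp).1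
  have h2 : mQ B Q ≤ ∏ p ∈ T, (1 - (p : ℝ)⁻¹) := by
    have h3 := phi_ratio hQ
    rw [hpf] at h3
    rw [← h3]
    unfold mQ
    refine div_le_div_of_nonneg_right ?_ (Nat.cast_nonneg Q)
    have h4 : ((range Q).filter (fun n => Q.gcd n ∈ B)).card ≤ Nat.totient Q := by
      rw [Nat.totient]
      refine Finset.card_le_card ?_
      intro n hn
      have hn' := mem_filter.1 hn
      refine mem_filter.2 ⟨hn'.1, ?_⟩
      by_contra hc
      obtain ⟨p, hp, hpd⟩ := Nat.exists_prime_and_dvd hc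
      have h5 : p ∈ Q.primeFactors :=
        Nat.mem_primeFactors.2 ⟨hp, hpd.trans (Nat.gcd_dvd_left _ _), hQ⟩
      rw [hpf] at h5
      exact (hT p h5).2 (hB _ hn'.2 _ hpd)
    exact_mod_cast h4
  have h6 : ∏ p ∈ T, (1 - (p : ℝ)⁻¹) ≤ Real.exp (-∑ p ∈ T, (p : ℝ)⁻¹) := by
    rw [← Finset.sum_neg_distrib, Real.exp_sum]
    refine Finset.prod_le_prod (fun p hp => fac_nonneg (hT p hp).1) (fun p _ => ?_)
    have := Real.add_one_le_exp (-(p : ℝ)⁻¹)
    linarith
  have h7 : UD B ≤ Real.exp (-∑ p ∈ T, (p : ℝ)⁻¹) := (h1.trans h2).trans h6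
  have h8 := Real.log_le_log hpos h7
  rw [Real.log_exp] at h8
  linarith

end Pool.Agent.helper5.WI
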